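import Pool.Agent.V8H3.GC.Defs
import Pool.Agent.V8H55.RD.Main

set_option autoImplicit false

noncomputable section

namespace Pool.Agent.V8H3.GC

open Pool.Agent.V8H27.GC

theorem mem_img {V W : Type} (f : V ↪ W) {K : Set (Finset V)} {s : Finset V} : s.map f ∈ img f K ↔ s ∈ K :=
  ⟨fun ⟨t, ht, h⟩ => by rwa [Finset.map_injective f h], fun h => ⟨s, h, rfl⟩⟩

theorem sub_map {V W : Type} (f : V ↪ W) {T : Finset W} {s : Finset V} (h : T ⊆ s.map f) :
    ∃ t : Finset V, t ⊆ s ∧ T = t.map f := by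
  rw [Finset.subset_map_iff] at h
  exact h

/-- the labels outside of the image do not occur -/
theorem star_img {V W : Type} [LinearOrder V] [LinearOrder W] (f : V ↪ W) (K : Set (Finset V)) (A : Finset V) (m : V)
    : img f (star A m K) = star (A.map f) (f m) (img f K) := by
  ext T
  constructor
  · rintro ⟨s, ⟨h1, h2⟩, rfl⟩
    refine ⟨?_, by rwa [Finset.map_subset_map]⟩
    rcases h1 with h1 | ⟨h1, h3⟩
    · exact Or.inl (mem_img f |>.2 h1)
    · refine Or.inr ⟨Finset.mem_map_of_mem f h1, ?_⟩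
      rw [← Finset.map_erase, ← Finset.map_union]
      exact (mem_img f).2 h3
  · rintro ⟨h1, h2⟩
    rcases h1 with ⟨s, h1, rfl⟩ | ⟨h1, s, h3, h4⟩
    · rw [Finset.map_subset_map] at h2
      exact ⟨s, ⟨Or.inl h1, h2⟩, rfl⟩
    · have h5 : T.erase (f m) ⊆ s.map f := by
        rw [← h4]
        exact Finset.subset_union_left
      obtain ⟨t, ht, h6⟩ := sub_map f h5
      have h7 : T = (insert m t).map f := by
        rw [Finset.map_insert, ← h6, Finset.insert_erase h1]
      subst h7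
      rw [Finset.map_subset_map] at h2
      rw [← Finset.map_erase, ← Finset.map_union] at h4
      rw [Finset.map_injective f h4.symm] at h3
      exact ⟨insert m t, ⟨Or.inr ⟨Finset.mem_insert_self _ _, h3⟩, h2⟩, rfl⟩

/-- PLC along an embedding -/
theorem PLC_map {V W : Type} [LinearOrder V] [LinearOrder W] {n : ℕ} (f : V ↪ W) {K : Set (Finset V)}
    (h : PLC n K) : PLC n (img f K) := by
  induction h with
  | base U hU =>
    have : img f {T | T ⊂ U} = {T | T ⊂ U.map f} := by
      ext T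
      constructor
      · rintro ⟨s, hs, rfl⟩
        exact Finset.map_ssubset_map.2 hs
      · intro hT
        obtain ⟨t, ht, rfl⟩ := sub_map f hT.1
        exact ⟨t, Finset.map_ssubset_map.1 hT, rfl⟩
    rw [this]
    exact PLC.base _ (by rw [Finset.card_map, hU])
  | star K A m _ hA hne hm ih =>
    rw [star_img]
    refine PLC.star _ _ _ ih ((mem_img f).2 hA) (hne.map) ?_
    rintro T ⟨s, hs, rfl⟩ hmT
    rw [Finset.mem_map'] at hmT
    exact hm s hs hmT
  | unstar K A m hd hA hne hm _ ih =>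
    rw [star_img] at ih
    refine PLC.unstar _ _ _ ?_ ((mem_img f).2 hA) (hne.map) ?_ ih
    · rintro T ⟨s, hs, rfl⟩ S hS
      obtain ⟨t, ht, rfl⟩ := sub_map f hS
      exact (mem_img f).2 (hd s hs t ht)
    · rintro T ⟨s, hs, rfl⟩ hmT
      rw [Finset.mem_map'] at hmT
      exact hm s hs hmT

theorem map_val_res {N : ℕ} {K : Set (Finset ℕ)} {s : Finset (Fin N)} : s ∈ res N K ↔ s.map Fin.valEmbedding ∈ K :=
  Iff.rfl

/-- the labels of a derivation are bounded -/
theorem PLC_res {n : ℕ} {K : Set (Finset ℕ)} (h : PLC n K) :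
    ∃ N, (∀ T ∈ K, ∀ x ∈ T, x < N) ∧ ∀ M, N ≤ M → PLC n (res M K) := by
  have hfin : ∀ {A : Finset ℕ} {M : ℕ}, (∀ x ∈ A, x < M) → ∃ B : Finset (Fin M), A = B.map Fin.valEmbedding := by
    intro A M hA
    refine ⟨A.attachFin hA, ?_⟩
    ext x
    simp only [Finset.mem_map, Finset.mem_attachFin, Fin.valEmbedding_apply]
    exact ⟨fun hx => ⟨⟨x, hA x hx⟩, hx, rfl⟩, by rintro ⟨a, ha, rfl⟩; exact ha⟩
  have hst : ∀ {A : Finset ℕ} {m M : ℕ} (hA : ∀ x ∈ A, x < M) (hm : m < M) (K : Set (Finset ℕ)),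
      ∃ B : Finset (Fin M), A = B.map Fin.valEmbedding ∧ res M (star A m K) = star B ⟨m, hm⟩ (res M K) := by
    intro A m M hA hm K
    obtain ⟨B, hB⟩ := hfin hA
    refine ⟨B, hB, ?_⟩
    ext T
    have e1 : ((T.map Fin.valEmbedding).erase m ∪ A) = (T.erase ⟨m, hm⟩ ∪ B).map Fin.valEmbedding := by
      rw [Finset.map_union, Finset.map_erase, hB]
      rfl
    have e2 : m ∈ T.map Fin.valEmbedding ↔ (⟨m, hm⟩ : Fin M) ∈ T :=
      Finset.mem_map' Fin.valEmbedding (a := (⟨m, hm⟩ : Fin M))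
    have e3 : A ⊆ T.map Fin.valEmbedding ↔ B ⊆ T := by rw [hB, Finset.map_subset_map]
    show ((T.map Fin.valEmbedding ∈ K ∨ (m ∈ T.map Fin.valEmbedding ∧ (T.map Fin.valEmbedding).erase m ∪ A ∈ K)) ∧
      ¬ A ⊆ T.map Fin.valEmbedding) ↔ ((T ∈ res M K ∨ ((⟨m, hm⟩ : Fin M) ∈ T ∧ T.erase ⟨m, hm⟩ ∪ B ∈ res M K)) ∧ ¬ B ⊆ T)
    rw [e1, e2, e3]
    rfl
  induction h with
  | base U hU =>
    refine ⟨U.sup id + 1, fun T hT x hx => ?_, fun M hM => ?_⟩
    · have : x ≤ U.sup id := Finset.le_sup (f := id) (hT.1 hx)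
      omega
    · obtain ⟨B, rfl⟩ := hfin (A := U) (M := M) fun x hx => by
        have : x ≤ U.sup id := Finset.le_sup (f := id) hx
        omega
      have : res M {T | T ⊂ B.map Fin.valEmbedding} = {T | T ⊂ B} := by
        ext T
        exact Finset.map_ssubset_map
      rw [this]
      exact PLC.base _ (by rw [← hU, Finset.card_map])
  | star K A m h0 hA hne hm ih =>
    obtain ⟨N, h1, h2⟩ := ih
    refine ⟨max N (m + 1), ?_, fun M hM => ?_⟩
    · rintro T ⟨h3 | ⟨h3, h4⟩, -⟩ x hx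
      · exact lt_of_lt_of_le (h1 T h3 x hx) (le_max_left _ _)
      · by_cases hxm : x = m
        · subst hxm
          exact lt_of_lt_of_le (Nat.lt_succ_self x) (le_max_right _ _)
        · exact lt_of_lt_of_le (h1 _ h4 x (Finset.mem_union_left _ (Finset.mem_erase.2 ⟨hxm, hx⟩))) (le_max_left _ _)
    · have hN : N ≤ M := le_trans (le_max_left _ _) hM
      have hmM : m < M := lt_of_lt_of_le (Nat.lt_succ_self m) (le_trans (le_max_right _ _) hM)
      obtain ⟨B, hB, e⟩ := hst (A := A) (M := M) (fun x hx => lt_of_lt_of_le (h1 A hA x hx) hN) hmM K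
      rw [e]
      refine PLC.star _ _ _ (h2 M hN) ?_ ?_ ?_
      · show B.map Fin.valEmbedding ∈ K
        rw [← hB]
        exact hA
      · rw [hB, Finset.map_nonempty] at hne
        exact hne
      · intro T hT hmT
        exact hm _ hT (Finset.mem_map_of_mem Fin.valEmbedding hmT)
  | unstar K A m hd hA hne hm h0 ih =>
    obtain ⟨N, h1, h2⟩ := ih
    have hb : ∀ T ∈ K, ∀ x ∈ T, x < max N (A.sup id + 1) := by
      intro T hT x hx
      by_cases hxA : A ⊆ {x}
      · obtain ⟨a, ha⟩ := hne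
        have : a = x := Finset.mem_singleton.1 (hxA ha)
        subst this
        have : a ≤ A.sup id := Finset.le_sup (f := id) ha
        exact lt_of_lt_of_le (Nat.lt_succ_of_le this) (le_max_right _ _)
      · exact lt_of_lt_of_le (h1 {x} ⟨Or.inl (hd T hT _ (Finset.singleton_subset_iff.2 hx)), hxA⟩ x
          (Finset.mem_singleton_self x)) (le_max_left _ _)
    have hmN : m < N := by
      obtain ⟨a, ha⟩ := hne
      refine h1 {m} ⟨Or.inr ⟨Finset.mem_singleton_self m, ?_⟩, ?_⟩ m (Finset.mem_singleton_self m)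
      · rw [Finset.erase_singleton, Finset.empty_union]
        exact hA
      · intro h
        exact hm A hA (Finset.mem_singleton.1 (h ha) ▸ ha)
    refine ⟨max N (A.sup id + 1), hb, fun M hM => ?_⟩
    have hN : N ≤ M := le_trans (le_max_left _ _) hM
    have hmM : m < M := lt_of_lt_of_le hmN hN
    obtain ⟨B, hB, e⟩ := hst (A := A) (M := M) (fun x hx => lt_of_lt_of_le (hb A hA x hx) hM) hmM K
    refine PLC.unstar _ B ⟨m, hmM⟩ ?_ ?_ ?_ ?_ (e ▸ h2 M hN)
    · intro T hT S hS
      exact hd _ hT _ (Finset.map_subset_map.2 hS)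
    · show B.map Fin.valEmbedding ∈ K
      rw [← hB]
      exact hA
    · rw [hB, Finset.map_nonempty] at hne
      exact hne
    · intro T hT hmT
      exact hm _ hT (Finset.mem_map_of_mem Fin.valEmbedding hmT)

end Pool.Agent.V8H3.GC
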