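import Pool.Agent.V8H3.GC.Defs
import Pool.Agent.V8H55.RD.Tr

set_option autoImplicit false

noncomputable section

namespace Pool.Agent.V8H3.GC

open Pool.Agent.V8H27.GC

/-- homology along an order embedding -/
theorem GS_comap {F : Type} [Field F] {V W : Type} [Fintype V] [LinearOrder V] [Fintype W] [LinearOrder W] {n : ℕ}
    (f : V ↪o W) {K : Set (Finset V)} (h : GS F n (img f.toEmbedding K)) : GS F n K := by
  have h1 := Pool.Agent.V8H55.RD.GS_pull f (X := img f.toEmbedding K) (fun T hT x hx => by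
    obtain ⟨s, -, rfl⟩ := hT
    obtain ⟨y, -, rfl⟩ := Finset.mem_map.1 hx
    exact ⟨y, rfl⟩) h
  have h2 : Pool.Agent.V8H55.RD.pull f (img f.toEmbedding K) = K := by
    ext T
    constructor
    · rintro ⟨s, hs, h⟩
      rwa [Finset.map_injective _ h]
    · intro hT
      exact ⟨T, hT, rfl⟩
  rwa [h2] at h1

end Pool.Agent.V8H3.GC
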