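import Pool.Agent.V8H3.GC.Defs
import Pool.Agent.V8H3.GC.G1
import Pool.Agent.V8H3.GC.G02
import Pool.Agent.V8H27.GC.E
import Pool.Agent.V8H10.LT.Brid

/-!
# Edge subdivisions, and the homology of a PL sphere
-/

set_option autoImplicit false

noncomputable section

namespace Pool.Agent.V8H3.GC

open Pool.Agent.V8H27.GC Pool.Agent.V8H10.LT Pool.Agent.W907.SG

/-- adjacency of labels -/
def AdjN {n : ℕ} (G : SimpleGraph (Fin n)) (x y : ℕ) : Prop := ∃ (hx : x < n) (hy : y < n), G.Adj ⟨x, hx⟩ ⟨y, hy⟩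

theorem AdjN.symm {n : ℕ} {G : SimpleGraph (Fin n)} {x y : ℕ} (h : AdjN G x y) : AdjN G y x := by
  obtain ⟨h1, h2, h3⟩ := h
  exact ⟨h2, h1, h3.symm⟩

theorem AdjN.ne {n : ℕ} {G : SimpleGraph (Fin n)} {x y : ℕ} (h : AdjN G x y) : x ≠ y := by
  obtain ⟨h1, h2, h3⟩ := h
  intro h
  exact h3.ne (Fin.ext h)

theorem mem_flagC {n : ℕ} {G : SimpleGraph (Fin n)} {T : Finset ℕ} :
    T ∈ flagC G ↔ (∀ x ∈ T, x < n) ∧ ∀ x ∈ T, ∀ y ∈ T, x ≠ y → AdjN G x y := by
  constructor
  · rintro ⟨s, hs, rfl⟩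
    constructor
    · intro x hx
      obtain ⟨a, ha, rfl⟩ := Finset.mem_map.1 hx
      exact a.2
    · intro x hx y hy hxy
      obtain ⟨a, ha, rfl⟩ := Finset.mem_map.1 hx
      obtain ⟨b, hb, rfl⟩ := Finset.mem_map.1 hy
      refine ⟨a.2, b.2, ?_⟩
      exact hs (by exact_mod_cast ha) (by exact_mod_cast hb) fun h => hxy (congrArg _ h)
  · rintro ⟨h1, h2⟩
    refine ⟨T.attachFin h1, ?_, ?_⟩
    · intro a ha b hb hab
      have ha' : (a : ℕ) ∈ T := by simpa using ha
      have hb' : (b : ℕ) ∈ T := by simpa using hb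
      obtain ⟨h3, h4, h5⟩ := h2 a ha' b hb' fun h => hab (Fin.ext h)
      exact h5
    · ext x
      simp only [Finset.mem_map, Finset.mem_attachFin, Fin.valEmbedding_apply]
      exact ⟨fun hx => ⟨⟨x, h1 x hx⟩, hx, rfl⟩, by rintro ⟨a, ha, rfl⟩; exact ha⟩

theorem adjN_subdiv {n : ℕ} (G : SimpleGraph (Fin n)) (s t : Fin n) (x y : ℕ) :
    AdjN (subdiv G s t) x y ↔ (AdjN G x y ∧ s(x, y) ≠ s((s : ℕ), (t : ℕ))) ∨
      (x = n ∧ y < n ∧ (y = s ∨ y = t ∨ (AdjN G s y ∧ AdjN G t y))) ∨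
      (y = n ∧ x < n ∧ (x = s ∨ x = t ∨ (AdjN G s x ∧ AdjN G t x))) := by
  have key : ∀ x y : Fin (n + 1), ((∃ a b, x = Fin.castSucc a ∧ y = Fin.castSucc b ∧ G.Adj a b ∧ s(a, b) ≠ s(s, t)) ∨
      (x = Fin.last n ∧ ∃ b, y = Fin.castSucc b ∧ (b = s ∨ b = t ∨ (G.Adj s b ∧ G.Adj t b)))) ↔
      ((AdjN G x y ∧ s((x : ℕ), (y : ℕ)) ≠ s((s : ℕ), (t : ℕ))) ∨
      ((x : ℕ) = n ∧ (y : ℕ) < n ∧ ((y : ℕ) = s ∨ (y : ℕ) = t ∨ (AdjN G s y ∧ AdjN G t y)))) := by
    intro x y
    constructor
    · rintro (⟨a, b, rfl, rfl, h3, h4⟩ | ⟨rfl, b, rfl, h⟩)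
      · refine Or.inl ⟨⟨a.2, b.2, h3⟩, fun h => h4 ?_⟩
        have h5 : Sym2.map (Fin.val) s(a, b) = Sym2.map (Fin.val) s(s, t) := by simpa using h
        exact Sym2.map.injective Fin.val_injective h5
      · refine Or.inr ⟨rfl, b.2, ?_⟩
        rcases h with rfl | rfl | ⟨h1, h2⟩
        · exact Or.inl rfl
        · exact Or.inr (Or.inl rfl)
        · exact Or.inr (Or.inr ⟨⟨s.2, b.2, h1⟩, ⟨t.2, b.2, h2⟩⟩)
    · rintro (⟨⟨h1, h2, h3⟩, h4⟩ | ⟨h1, h2, h3⟩)
      · refine Or.inl ⟨⟨x, h1⟩, ⟨y, h2⟩, Fin.ext rfl, Fin.ext rfl, h3, fun h => h4 ?_⟩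
        have h5 := congrArg (Sym2.map Fin.val) h
        simpa using h5
      · refine Or.inr ⟨Fin.ext h1, ⟨y, h2⟩, Fin.ext rfl, ?_⟩
        rcases h3 with h3 | h3 | ⟨⟨_, _, h3⟩, ⟨_, _, h4⟩⟩
        · exact Or.inl (Fin.ext h3)
        · exact Or.inr (Or.inl (Fin.ext h3))
        · exact Or.inr (Or.inr ⟨h3, h4⟩)
  constructor
  · rintro ⟨hx, hy, h⟩
    unfold subdiv at h
    rw [SimpleGraph.fromRel_adj] at h
    obtain ⟨h0, h | h⟩ := h
    · rcases (key _ _).1 h with h | h
      · exact Or.inl h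
      · exact Or.inr (Or.inl h)
    · rcases (key _ _).1 h with h | h
      · exact Or.inl ⟨h.1.symm, by rw [Sym2.eq_swap]; exact h.2⟩
      · exact Or.inr (Or.inr h)
  · intro h
    have hx : x < n + 1 := by
      rcases h with ⟨⟨h1, h2, h3⟩, -⟩ | ⟨h1, h2, -⟩ | ⟨h1, h2, -⟩ <;> omega
    have hy : y < n + 1 := by
      rcases h with ⟨⟨h1, h2, h3⟩, -⟩ | ⟨h1, h2, -⟩ | ⟨h1, h2, -⟩ <;> omega
    have hxy : x ≠ y := by
      rcases h with ⟨h1, -⟩ | ⟨h1, h2, -⟩ | ⟨h1, h2, -⟩
      · exact h1.ne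
      · omega
      · omega
    refine ⟨hx, hy, ?_⟩
    unfold subdiv
    rw [SimpleGraph.fromRel_adj]
    refine ⟨fun h => hxy (congrArg Fin.val h), ?_⟩
    rcases h with h | h | h
    · exact Or.inl ((key _ _).2 (Or.inl h))
    · exact Or.inl ((key _ _).2 (Or.inr h))
    · exact Or.inr ((key _ _).2 (Or.inr h))

theorem flagC_subdiv {n : ℕ} (G : SimpleGraph (Fin n)) (s t : Fin n) (hst : G.Adj s t) :
    flagC (subdiv G s t) = star {(s : ℕ), (t : ℕ)} n (flagC G) := by
  have hs := s.2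
  have ht := t.2
  have hst' : AdjN G s t := ⟨s.2, t.2, hst⟩
  ext T
  unfold Pool.Agent.V8H27.GC.star
  rw [Set.mem_setOf_eq, mem_flagC, mem_flagC, mem_flagC]
  simp only [adjN_subdiv]
  constructor
  · rintro ⟨h1, h2⟩
    have h3 : ¬ ({(s : ℕ), (t : ℕ)} : Finset ℕ) ⊆ T := by
      intro h
      have hs' : (s : ℕ) ∈ T := h (by simp)
      have ht' : (t : ℕ) ∈ T := h (by simp)
      rcases h2 _ hs' _ ht' hst'.ne with h | h | h
      · exact h.2 rfl
      · omega
      · omega
    refine ⟨?_, h3⟩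
    by_cases hn : n ∈ T
    · right
      refine ⟨hn, ?_, ?_⟩
      · intro x hx
        simp only [Finset.mem_union, Finset.mem_erase, Finset.mem_insert, Finset.mem_singleton] at hx
        rcases hx with ⟨hx1, hx2⟩ | rfl | rfl
        · have := h1 x hx2
          omega
        · exact hs
        · exact ht
      · have hA : ∀ x, x ∈ T.erase n → x = s ∨ x = t ∨ (AdjN G s x ∧ AdjN G t x) := by
          intro x hx
          rw [Finset.mem_erase] at hx
          rcases h2 n hn x hx.2 (Ne.symm hx.1) with h | h | h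
          · obtain ⟨⟨h4, -⟩, -⟩ := h
            omega
          · exact h.2.2
          · omega
        have hB : ∀ x, x ∈ T.erase n → x ≠ s → AdjN G s x := by
          intro x hx hxs
          rcases hA x hx with h | h | h
          · exact absurd h hxs
          · rw [h]; exact hst'
          · exact h.1
        have hC : ∀ x, x ∈ T.erase n → x ≠ t → AdjN G t x := by
          intro x hx hxs
          rcases hA x hx with h | h | h
          · rw [h]; exact hst'.symm
          · exact absurd h hxs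
          · exact h.2
        intro x hx y hy hxy
        rw [Finset.mem_union, Finset.mem_insert, Finset.mem_singleton] at hx hy
        rcases hx with hx | rfl | rfl
        · rcases hy with hy | rfl | rfl
          · rw [Finset.mem_erase] at hx hy
            rcases h2 x hx.2 y hy.2 hxy with h | h | h
            · exact h.1
            · exact absurd h.1 hx.1
            · exact absurd h.1 hy.1
          · exact (hB x hx hxy).symm
          · exact (hC x hx hxy).symm
        · rcases hy with hy | rfl | rfl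
          · exact hB y hy (Ne.symm hxy)
          · exact absurd rfl hxy
          · exact hst'
        · rcases hy with hy | rfl | rfl
          · exact hC y hy (Ne.symm hxy)
          · exact hst'.symm
          · exact absurd rfl hxy
    · left
      refine ⟨fun x hx => ?_, fun x hx y hy hxy => ?_⟩
      · have := h1 x hx
        have : x ≠ n := fun h => hn (h ▸ hx)
        omega
      · rcases h2 x hx y hy hxy with h | h | h
        · exact h.1
        · exact absurd (h.1 ▸ hx) hn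
        · exact absurd (h.1 ▸ hy) hn
  · rintro ⟨h, h3⟩
    have hne : ∀ x ∈ T, ∀ y ∈ T, s(x, y) ≠ s((s : ℕ), (t : ℕ)) := by
      intro x hx y hy hxy
      apply h3
      rw [Sym2.eq_iff] at hxy
      intro z hz
      rw [Finset.mem_insert, Finset.mem_singleton] at hz
      rcases hxy with ⟨rfl, rfl⟩ | ⟨rfl, rfl⟩ <;> rcases hz with rfl | rfl <;> assumption
    rcases h with ⟨h1, h2⟩ | ⟨hn, h1, h2⟩
    · exact ⟨fun x hx => by have := h1 x hx; omega, fun x hx y hy hxy => Or.inl ⟨h2 x hx y hy hxy, hne x hx y hy⟩⟩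
    · have hl : ∀ x ∈ T, x ≠ n → x < n := fun x hx hxn =>
        h1 x (Finset.mem_union_left _ (Finset.mem_erase.2 ⟨hxn, hx⟩))
      have hA : ∀ x ∈ T, x ≠ n → x = s ∨ x = t ∨ (AdjN G s x ∧ AdjN G t x) := by
        intro x hx hxn
        by_cases hxs : x = s
        · exact Or.inl hxs
        by_cases hxt : x = t
        · exact Or.inr (Or.inl hxt)
        refine Or.inr (Or.inr ⟨?_, ?_⟩)
        · exact h2 _ (Finset.mem_union_right _ (by simp)) _ (Finset.mem_union_left _ (Finset.mem_erase.2 ⟨hxn, hx⟩))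
            (Ne.symm hxs)
        · exact h2 _ (Finset.mem_union_right _ (by simp)) _ (Finset.mem_union_left _ (Finset.mem_erase.2 ⟨hxn, hx⟩))
            (Ne.symm hxt)
      refine ⟨fun x hx => ?_, fun x hx y hy hxy => ?_⟩
      · by_cases hxn : x = n
        · omega
        · have := hl x hx hxn
          omega
      · by_cases hxn : x = n
        · have hyn : y ≠ n := fun h => hxy (hxn.trans h.symm)
          exact Or.inr (Or.inl ⟨hxn, hl y hy hyn, hA y hy hyn⟩)
        · by_cases hyn : y = n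
          · exact Or.inr (Or.inr ⟨hyn, hl x hx hxn, hA x hx hxn⟩)
          · exact Or.inl ⟨h2 x (Finset.mem_union_left _ (Finset.mem_erase.2 ⟨hxn, hx⟩)) y
              (Finset.mem_union_left _ (Finset.mem_erase.2 ⟨hyn, hy⟩)) hxy, hne x hx y hy⟩

theorem PLSphere_subdiv {k n : ℕ} {G : SimpleGraph (Fin n)} (s t : Fin n) (hst : G.Adj s t) (h : PLSphere k G) :
    PLSphere k (subdiv G s t) := by
  unfold PLSphere
  rw [flagC_subdiv G s t hst]
  refine PLC.star _ _ _ h ?_ ⟨s, by simp⟩ fun T hT hn => ?_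
  · rw [mem_flagC]
    constructor
    · intro x hx
      rw [Finset.mem_insert, Finset.mem_singleton] at hx
      rcases hx with rfl | rfl
      · exact s.2
      · exact t.2
    · intro x hx y hy hxy
      rw [Finset.mem_insert, Finset.mem_singleton] at hx hy
      have hst' : AdjN G s t := ⟨s.2, t.2, hst⟩
      rcases hx with rfl | rfl <;> rcases hy with rfl | rfl
      · exact absurd rfl hxy
      · exact hst'
      · exact hst'.symm
      · exact absurd rfl hxy
  · exact absurd ((mem_flagC.1 hT).1 n hn) (lt_irrefl n)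

theorem PLSphere_subdivided {k m n : ℕ} {G : SimpleGraph (Fin m)} {H : SimpleGraph (Fin n)}
    (h : Subdivided G H) (hG : PLSphere k G) : PLSphere k H := by
  induction h with
  | refl => exact hG
  | step H s t h1 _ ih => exact PLSphere_subdiv s t h1 ih

theorem img_eq_res {n M : ℕ} (hn : n ≤ M) (G : SimpleGraph (Fin n)) :
    img (Fin.castLEOrderEmb hn).toEmbedding {T : Finset (Fin n) | G.IsClique (T : Set (Fin n))} = res M (flagC G) := by
  ext T
  constructor
  · rintro ⟨s, hs, rfl⟩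
    exact ⟨s, hs, by rw [Finset.map_map]; rfl⟩
  · rintro ⟨s, hs, h⟩
    refine ⟨s, hs, ?_⟩
    apply Finset.map_injective Fin.valEmbedding
    rw [h, Finset.map_map]
    rfl

theorem PLSphere_sphere {k n : ℕ} {G : SimpleGraph (Fin n)} (h : PLSphere k G) :
    Sphere G ℝ k ∧ Sphere G (ZMod 2) k := by
  obtain ⟨N, -, hN⟩ := PLC_res h
  have h1 := hN (max N n) (le_max_left _ _)
  rw [← img_eq_res (le_max_right _ _)] at h1
  exact ⟨(sphere_R G).2 (toHSph G (GS_comap _ h1.gs)), (sphere_2 G).2 (toHSph2 G (GS_comap _ h1.gs))⟩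

end Pool.Agent.V8H3.GC
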