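import Pool.Agent.V8H3.GC.G34

/-!
# Flag PL spheres with labels in the natural numbers are flag complexes of graphs
-/

set_option autoImplicit false

noncomputable section

namespace Pool.Agent.V8H3.GC

open Pool.Agent.V8H27.GC

open Classical in
theorem exists_graph {k : ℕ} {D : Set (Finset ℕ)} (h : PLC k D) (hf : ∀ T, (∀ x ∈ T, ∀ y ∈ T, {x, y} ∈ D) → T ∈ D) :
    ∃ (n : ℕ) (H : SimpleGraph (Fin n)) (g : ℕ → ℕ), PLSphere k H ∧
      ∀ x, {x} ∈ D → ∃ hx : g x < n, ∀ y, {y} ∈ D → ∃ hy : g y < n, ((g x = g y → x = y) ∧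
        (H.Adj ⟨g x, hx⟩ ⟨g y, hy⟩ ↔ x ≠ y ∧ {x, y} ∈ D)) := by
  have hdn := Pool.Agent.V8H55.RD.PLC_dn h
  obtain ⟨M, hM⟩ := Pool.Agent.V8H55.RD.exists_bound (Pool.Agent.V8H55.RD.PLC_fin h)
  set X : Finset ℕ := (Finset.range M).filter fun x => ({x} : Finset ℕ) ∈ D with hX
  have memX : ∀ x, x ∈ X ↔ ({x} : Finset ℕ) ∈ D := by
    intro x
    rw [hX, Finset.mem_filter, Finset.mem_range]
    exact ⟨fun h => h.2, fun h => ⟨hM _ h x (Finset.mem_singleton_self x), h⟩⟩
  set e := X.equivFin with he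
  let g : ℕ → ℕ := fun x => if hx : x ∈ X then (e ⟨x, hx⟩ : ℕ) else X.card + x
  have g1 : ∀ x (hx : x ∈ X), g x = (e ⟨x, hx⟩ : ℕ) := fun x hx => dif_pos hx
  have g2 : ∀ x, x ∉ X → g x = X.card + x := fun x hx => dif_neg hx
  have glt : ∀ x, x ∈ X → g x < X.card := fun x hx => by
    rw [g1 x hx]
    exact (e ⟨x, hx⟩).2
  have ginj : Function.Injective g := by
    intro x y hxy
    by_cases hx : x ∈ X <;> by_cases hy : y ∈ X
    · rw [g1 x hx, g1 y hy] at hxy
      exact congrArg Subtype.val (e.injective (Fin.ext hxy))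
    · rw [g2 y hy] at hxy
      have := glt x hx
      omega
    · rw [g2 x hx] at hxy
      have := glt y hy
      omega
    · rw [g2 x hx, g2 y hy] at hxy
      omega
  have gsymm : ∀ i : Fin X.card, g (e.symm i : ℕ) = i := by
    intro i
    rw [g1 _ (e.symm i).2]
    show ((e (e.symm i) : Fin X.card) : ℕ) = i
    rw [Equiv.apply_symm_apply]
  have esymm : ∀ x (hx : x ∈ X) (h : g x < X.card), (e.symm ⟨g x, h⟩ : ℕ) = x := by
    intro x hx h
    exact ginj (gsymm _)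
  let H : SimpleGraph (Fin X.card) :=
    { Adj := fun i j => i ≠ j ∧ ({(e.symm i : ℕ), (e.symm j : ℕ)} : Finset ℕ) ∈ D
      symm := ⟨fun i j h => ⟨h.1.symm, by rw [Finset.pair_comm]; exact h.2⟩⟩
      loopless := ⟨fun i h => h.1 rfl⟩ }
  have hadj : ∀ x y (hx : x ∈ X) (hy : y ∈ X), H.Adj ⟨g x, glt x hx⟩ ⟨g y, glt y hy⟩ ↔ x ≠ y ∧ {x, y} ∈ D := by
    intro x y hx hy
    show (_ ≠ _ ∧ ({(e.symm ⟨g x, glt x hx⟩ : ℕ), (e.symm ⟨g y, glt y hy⟩ : ℕ)} : Finset ℕ) ∈ D) ↔ _
    rw [esymm x hx, esymm y hy]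
    refine and_congr_left fun _ => not_congr ⟨fun h => ginj (congrArg Fin.val h), fun h => ?_⟩
    subst h
    rfl
  have key : img ⟨g, ginj⟩ D = flagC H := by
    ext T
    constructor
    · rintro ⟨s, hs, rfl⟩
      have hsX : ∀ x ∈ s, x ∈ X := fun x hx => (memX x).2 (hdn s hs _ (Finset.singleton_subset_iff.2 hx))
      rw [mem_flagC]
      refine ⟨fun x hx => ?_, fun x hx y hy hxy => ?_⟩
      · obtain ⟨a, ha, rfl⟩ := Finset.mem_map.1 hx
        exact glt a (hsX a ha)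
      · obtain ⟨a, ha, rfl⟩ := Finset.mem_map.1 hx
        obtain ⟨b, hb, rfl⟩ := Finset.mem_map.1 hy
        refine ⟨glt a (hsX a ha), glt b (hsX b hb), (hadj a b (hsX a ha) (hsX b hb)).2 ⟨fun h => hxy (by rw [h]), ?_⟩⟩
        refine hdn s hs _ ?_
        intro z hz
        rw [Finset.mem_insert, Finset.mem_singleton] at hz
        rcases hz with rfl | rfl <;> assumption
    · rintro ⟨s, hs, rfl⟩
      refine ⟨s.map ⟨fun i => (e.symm i : ℕ), fun i j h => e.symm.injective (Subtype.ext h)⟩, hf _ ?_, ?_⟩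
      · intro x hx y hy
        obtain ⟨i, hi, rfl⟩ := Finset.mem_map.1 hx
        obtain ⟨j, hj, rfl⟩ := Finset.mem_map.1 hy
        by_cases hij : i = j
        · subst hij
          rw [Finset.pair_eq_singleton]
          exact (memX _).1 (e.symm i).2
        · exact (hs (by exact_mod_cast hi) (by exact_mod_cast hj) hij : H.Adj i j).2
      · rw [Finset.map_map]
        ext x
        simp only [Finset.mem_map]
        constructor
        · rintro ⟨i, hi, rfl⟩
          exact ⟨i, hi, gsymm i⟩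
        · rintro ⟨i, hi, rfl⟩
          exact ⟨i, hi, (gsymm i).symm⟩
  refine ⟨X.card, H, g, ?_, ?_⟩
  · unfold PLSphere
    rw [← key]
    exact PLC_map _ h
  · intro x hx
    refine ⟨glt x ((memX x).2 hx), fun y hy => ⟨glt y ((memX y).2 hy), fun h => ginj h, ?_⟩⟩
    exact hadj x y ((memX x).2 hx) ((memX y).2 hy)

end Pool.Agent.V8H3.GC
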