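import Pool.Agent.V8H27.GC.Defs
import Pool.Agent.V8H10.LT.Std

/-!
# Flag triangulations of the PL sphere
-/

set_option autoImplicit false

noncomputable section

namespace Pool.Agent.V8H3.GC

open Pool.Agent.V8H27.GC

/-- The flag complex of the graph `G`, with the natural numbers `0, …, n - 1` as vertices. -/
def flagC {n : ℕ} (G : SimpleGraph (Fin n)) : Set (Finset ℕ) :=
  {T | ∃ s : Finset (Fin n), G.IsClique (s : Set (Fin n)) ∧ T = s.map Fin.valEmbedding}

/-- The flag complex of the graph `G` is a triangulation of the PL sphere of dimension `k - 1`: it is obtained from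
the boundary of a simplex by stellar subdivisions and their inverses. -/
def PLSphere (k : ℕ) {n : ℕ} (G : SimpleGraph (Fin n)) : Prop := PLC k (flagC G)

/-- the image of a complex under a map of the vertices -/
def img {V W : Type} (f : V ↪ W) (K : Set (Finset V)) : Set (Finset W) := {T | ∃ s ∈ K, T = s.map f}

/-- the faces of `K` on the vertices below `N` -/
def res (N : ℕ) (K : Set (Finset ℕ)) : Set (Finset (Fin N)) := {s | s.map Fin.valEmbedding ∈ K}

end Pool.Agent.V8H3.GC
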