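import Pool.Agent.V8H54.LT.Fin
import Pool.Agent.V8H50.GC.Cert
import Pool.Agent.V8H3.GC.Defs

/-!
# Checking that all the cliques of a graph are faces of a complex
-/

set_option autoImplicit false

namespace Pool.Agent.V8H3.GC

open Pool.Agent.V8H54.LT (adjR)

/-- the rows are symmetric and irreflexive on the numbers below `N` -/
def symR (N : ℕ) (rows : List ℕ) : Bool :=
  (List.range N).all fun x => (List.range N).all fun y =>
    (adjR rows x y == adjR rows y x) && ((!Nat.beq x y) || (!adjR rows x y))

/-- the graph of the rows -/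
theorem exists_K0 {N : ℕ} {rows : List ℕ} (h : symR N rows = true) :
    ∃ G : SimpleGraph (Fin N), ∀ x y : Fin N, G.Adj x y ↔ adjR rows x y = true := by
  unfold symR at h
  simp only [List.all_eq_true, List.mem_range, Bool.and_eq_true, beq_iff_eq, Bool.or_eq_true, Bool.not_eq_true',
    ] at h
  refine ⟨{ Adj := fun x y => adjR rows x y = true
            symm := ⟨fun x y hxy => ?_⟩
            loopless := ⟨fun x hx => ?_⟩ }, fun x y => Iff.rfl⟩
  · have := (h x x.2 y y.2).1
    rw [← this]
    exact hxy
  · have h1 := (h x x.2 x x.2).2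
    rcases h1 with h1 | h1
    · have : Nat.beq (x : ℕ) x = true := by rw [Nat.beq_eq]
      rw [this] at h1
      exact absurd h1 (by decide)
    · rw [h1] at hx
      exact absurd hx (by decide)

open Pool.Agent.V8H50.GC (faces ckK ckK_ok)

theorem flagC_sub {N : ℕ} {rows L : List ℕ} {G : SimpleGraph (Fin N)}
    (hG : ∀ x y : Fin N, G.Adj x y ↔ adjR rows x y = true) (h : ckK N (adjR rows) L = true) : flagC G ⊆ faces L := by
  rintro T ⟨s, hs, rfl⟩
  refine ckK_ok h _ (fun v hv => ?_) (fun v hv w hw hvw => ?_)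
  · obtain ⟨a, ha, rfl⟩ := Finset.mem_map.1 hv
    exact a.2
  · obtain ⟨a, ha, rfl⟩ := Finset.mem_map.1 hv
    obtain ⟨b, hb, rfl⟩ := Finset.mem_map.1 hw
    exact (hG a b).1 (hs (by exact_mod_cast ha) (by exact_mod_cast hb) fun h => hvw (congrArg _ h))

end Pool.Agent.V8H3.GC
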