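import Pool.Agent.V8H3.GC.Fin
import Pool.Agent.V8H3.GC.G34
import Pool.Agent.V8H3.GC.G5
import Pool.Agent.V8H3.GC.Kc
import Pool.Agent.V8H55.RD.Main
import Pool.Agent.V8H63.GC.DblMap

/-!
# The final statements from a certificate
-/

set_option autoImplicit false

noncomputable section

namespace Pool.Agent.V8H3.GC

open Filter Topology Pool.Agent.V8H10.LT Pool.Agent.V8H27.GC
open Pool.Agent.V8H3.LT (davis2 rate2)
open Pool.Agent.V8H54.LT (chk adjR exists_dbl numU)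

theorem pair_mem_flagC {N : ℕ} {G : SimpleGraph (Fin N)} (x y : Fin N) :
    ({(x : ℕ), (y : ℕ)} : Finset ℕ) ∈ flagC G ↔ x = y ∨ G.Adj x y := by
  rw [mem_flagC]
  constructor
  · rintro ⟨-, h⟩
    by_cases hxy : x = y
    · exact Or.inl hxy
    · obtain ⟨_, _, h2⟩ := h x (by simp) y (by simp) fun h => hxy (Fin.ext h)
      exact Or.inr h2
  · intro h
    refine ⟨fun v hv => ?_, fun v hv w hw hvw => ?_⟩
    · rw [Finset.mem_insert, Finset.mem_singleton] at hv
      rcases hv with rfl | rfl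
      · exact x.2
      · exact y.2
    · rcases h with rfl | h
      · rw [Finset.mem_insert, Finset.mem_singleton] at hv hw
        rcases hv with rfl | rfl <;> rcases hw with rfl | rfl <;> exact absurd rfl hvw
      · rw [Finset.mem_insert, Finset.mem_singleton] at hv hw
        rcases hv with rfl | rfl <;> rcases hw with rfl | rfl
        · exact absurd rfl hvw
        · exact ⟨x.2, y.2, h⟩
        · exact ⟨y.2, x.2, h.symm⟩
        · exact absurd rfl hvw

theorem single_mem_flagC {N : ℕ} {G : SimpleGraph (Fin N)} (x : ℕ) : ({x} : Finset ℕ) ∈ flagC G ↔ x < N := by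
  rw [mem_flagC]
  constructor
  · rintro ⟨h, -⟩
    exact h x (Finset.mem_singleton_self x)
  · intro h
    refine ⟨fun v hv => ?_, fun v hv w hw hvw => ?_⟩
    · rw [Finset.mem_singleton.1 hv]
      exact h
    · rw [Finset.mem_singleton.1 hv, Finset.mem_singleton.1 hw] at hvw
      exact absurd rfl hvw

/-- A flag PL sphere with a doubled cycle from a PL sphere which contains the flag complex of `G`. -/
theorem exists_sphere {N d k : ℕ} {F : Type} [Field F] {T : Set (Finset ℕ)} (hT : PLC k T)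
    {G : SimpleGraph (Fin N)} (hG : flagC G ⊆ T) (Z : Pool.Agent.N496.LT.Dbl F G d)
    (c : Fin Z.n → Fin (d + 1)) (hc : ∀ v w a b, G.Adj (Z.j v a) (Z.j w b) → c v ≠ c w) :
    ∃ (n : ℕ) (H : SimpleGraph (Fin n)) (Z' : Pool.Agent.N496.LT.Dbl F H d) (c' : Fin Z'.n → Fin (d + 1)),
      PLSphere k H ∧ (∀ v w a b, H.Adj (Z'.j v a) (Z'.j w b) → c' v ≠ c' w) ∧ Z'.U.card = Z.U.card := by
  obtain ⟨D, hD, hDf, hDK⟩ := Pool.Agent.V8H55.RD.derived hT hG
    (fun S hS R hR => by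
      rw [mem_flagC] at hS ⊢
      exact ⟨fun x hx => hS.1 x (hR hx), fun x hx y hy => hS.2 x (hR hx) y (hR hy)⟩)
    (fun S hS => by
      rw [mem_flagC]
      refine ⟨fun x hx => ?_, fun x hx y hy hxy => ?_⟩
      · have := hS x hx x hx
        rw [Finset.pair_eq_singleton, single_mem_flagC] at this
        exact this
      · exact (mem_flagC.1 (hS x hx y hy)).2 x (by simp) y (by simp) hxy)
  obtain ⟨n, H, g, hH, hg⟩ := exists_graph hD hDf
  have hs : ∀ x : Fin N, ({(x : ℕ)} : Finset ℕ) ∈ flagC G := fun x => (single_mem_flagC _).2 x.2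
  have hsD : ∀ x : Fin N, ({(x : ℕ)} : Finset ℕ) ∈ D := by
    intro x
    have := (hDK x x (hs x) (hs x)).2 (by rw [Finset.pair_eq_singleton]; exact hs x)
    rwa [Finset.pair_eq_singleton] at this
  have hlt : ∀ x : Fin N, g x < n := fun x => (hg x (hsD x)).1
  have hinj : ∀ x y : Fin N, g x = g y → x = y := by
    intro x y h
    obtain ⟨_, h1⟩ := hg x (hsD x)
    obtain ⟨_, h2, -⟩ := h1 y (hsD y)
    exact Fin.ext (h2 h)
  obtain ⟨Z', c', h1, h2⟩ := Pool.Agent.V8H63.GC.dbl_map (G := G) (H := H)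
    ⟨fun x => ⟨g x, hlt x⟩, fun x y h => hinj x y (congrArg Fin.val h)⟩ (fun x y => by
      obtain ⟨_, h1⟩ := hg x (hsD x)
      obtain ⟨_, -, h2⟩ := h1 y (hsD y)
      show H.Adj ⟨g x, _⟩ ⟨g y, _⟩ ↔ _
      rw [h2, hDK x y (hs x) (hs y), pair_mem_flagC]
      constructor
      · rintro ⟨h3, h4 | h4⟩
        · exact absurd (congrArg Fin.val h4) h3
        · exact h4
      · intro h
        exact ⟨fun h4 => h.ne (Fin.ext h4), Or.inr h⟩) Z c hc
  exact ⟨n, H, Z', c', hH, h1, h2⟩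

/-- **The certificate.** -/
structure Data (N d p : ℕ) (rows : List ℕ) (V : List (ℕ × ℕ × ℕ)) (S : List (List ℕ × ℕ)) (L : List ℕ) : Prop where
  sym : symR N rows = true
  chk : chk N d p (adjR rows) V S = true
  cliques : Pool.Agent.V8H50.GC.ckK N (adjR rows) L = true
  plc : PLC (2 * d + 1) (Pool.Agent.V8H50.GC.faces L)

theorem Data.final3 {N d p : ℕ} [Fact p.Prime] {rows : List ℕ} {V : List (ℕ × ℕ × ℕ)} {S : List (List ℕ × ℕ)}
    {L : List ℕ} (hp : p ≠ 2) (hd : 1 ≤ d) (D : Data N d p rows V S L) :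
    ∃ (n : ℕ) (S : SimpleGraph (Fin n)), PLSphere (2 * d + 1) S ∧ IsResFin (Gam S) ∧
      (free (davis S)).DetL2Acyclic ∧ (free (davis3 S)).DetL2Acyclic ∧ (free (davis3 S)).l2torsion = 0 ∧
      (∀ (K : ℕ → Subgroup (Gam S)) [∀ i, (K i).Normal], (∀ i, (K i).FiniteIndex) → Antitone K → ⨅ i, K i = ⊥ →
        ∀ b : ℝ, 0 < b → b < 2 ^ n / 2 ^ numU V → ∀ᶠ i in atTop, b ^ 3 * Real.log p ≤ rate (K i) (3 * d + 1)) ∧
      Fails (davis3 S) (3 * d + 1) := by
  obtain ⟨G, hG⟩ := exists_K0 D.sym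
  obtain ⟨Z, c, hc, -, hU⟩ := exists_dbl (H := G) hG D.chk
  obtain ⟨n, H, Z', c', h1, h2, h3⟩ := exists_sphere D.plc (flagC_sub hG D.cliques) Z c hc
  rw [← hU, ← h3]
  exact final3_of_dbl hp hd h1 Z' c' h2

theorem Data.final2 {N d p : ℕ} [Fact p.Prime] {rows : List ℕ} {V : List (ℕ × ℕ × ℕ)} {S : List (List ℕ × ℕ)}
    {L : List ℕ} (hp : p ≠ 2) (hd : 1 ≤ d) (D : Data N d p rows V S L) :
    ∃ (n : ℕ) (S : SimpleGraph (Fin n)), PLSphere (2 * d + 1) S ∧ IsResFin (Gam S) ∧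
      (free (davis S)).DetL2Acyclic ∧
      (∀ (K : ℕ → Subgroup (Gam S)) [∀ i, (K i).Normal], (∀ i, (K i).FiniteIndex) → Antitone K → ⨅ i, K i = ⊥ →
        ∀ b : ℝ, 0 < b → b < 2 ^ n / 2 ^ numU V → ∀ᶠ i in atTop, b ^ 2 * Real.log p ≤ rate2 (K i) (2 * d) ∧
          b ^ 2 * Real.log p ≤ rate2 (K i) (2 * d + 1)) ∧
      Grows (davis2 S) (2 * d) ∧ Grows (davis2 S) (2 * d + 1) := by
  obtain ⟨G, hG⟩ := exists_K0 D.sym
  obtain ⟨Z, c, hc, -, hU⟩ := exists_dbl (H := G) hG D.chk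
  obtain ⟨n, H, Z', c', h1, h2, h3⟩ := exists_sphere D.plc (flagC_sub hG D.cliques) Z c hc
  rw [← hU, ← h3]
  exact final2_of_dbl hp hd h1 Z' c' h2

end Pool.Agent.V8H3.GC
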