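import Pool.Agent.V8H50.GC.Cert

/-!
# The check of the cliques, one first vertex at a time
-/

set_option autoImplicit false

noncomputable section

namespace Pool.Agent.V8H3.GC

open Pool.Agent.V8H50.GC Pool.Agent.V8H50.FL

/-- the loop over the first vertex of a clique -/
def lp (adj : ℕ → ℕ → Bool) (k : ℕ) (L : List ℕ) (l : List ℕ) : Bool :=
  @List.rec ℕ (fun _ => Bool) true
    (fun v rest ih2 => @Bool.rec (fun _ => Bool) false ih2
      (filA adj v rest [] fun cand' => fil v L [] fun L' => ck adj k cand' L')) l

/-- the step for the vertex `v` -/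
def ck1 (adj : ℕ → ℕ → Bool) (k : ℕ) (L : List ℕ) (v : ℕ) (rest : List ℕ) : Bool :=
  filA adj v rest [] fun cand' => fil v L [] fun L' => ck adj k cand' L'

theorem lp_nil (adj : ℕ → ℕ → Bool) (k : ℕ) (L : List ℕ) : lp adj k L [] = true := rfl

theorem lp_cons {adj : ℕ → ℕ → Bool} {k : ℕ} {L : List ℕ} {v : ℕ} {rest : List ℕ} (h : lp adj k L rest = true)
    (h2 : ck1 adj k L v rest = true) : lp adj k L (v :: rest) = true := by
  show @Bool.rec (fun _ => Bool) false (lp adj k L rest) (ck1 adj k L v rest) = true
  rw [h2]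
  exact h

theorem rng_eq (m : ℕ) : ∀ c : List ℕ → Bool, rng m c = c (List.range m).reverse := by
  induction m with
  | zero => intro c; rfl
  | succ k ih =>
    intro c
    have h : rng (k + 1) c = rng k fun l => force k fun k' => c (k' :: l) := rfl
    rw [h, ih, force_eq, List.range_succ, List.reverse_append]
    rfl

theorem ckK_of {m : ℕ} {adj : ℕ → ℕ → Bool} {L : List ℕ} (h1 : ne L = true)
    (h2 : lp adj m L (List.range m).reverse = true) : ckK m adj L = true := by
  unfold ckK
  rw [rng_eq]
  show and (ne L) (lp adj m L (List.range m).reverse) = true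
  rw [h1, h2]
  rfl

end Pool.Agent.V8H3.GC
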