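import Pool.Agent.V8H3.LT.Sq

/-!
# Torsion growth along a chain of subgroups
-/

set_option autoImplicit false

noncomputable section

namespace Pool.Agent.V8H3.GC

open Filter Topology Pool.Agent.V8H10.LT

/-- There is a decreasing sequence of normal subgroups `L i` of finite index of `G`, with trivial intersection, for
which `log |tors H_k(C / L i)| / [G : L i]` does not converge to `0`. -/
def Grows {G : Type} [Group G] (C : Pool.Agent.N496.LT.GCx G) (k : ℕ) : Prop :=
  ∃ (L : ℕ → Subgroup G) (_ : ∀ i, (L i).Normal), (∀ i, (L i).FiniteIndex) ∧ Antitone L ∧ ⨅ i, L i = ⊥ ∧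
    ¬ Tendsto (fun i => Real.log (torsion (quot C (L i)) k) / (L i).index) atTop (𝓝 0)

end Pool.Agent.V8H3.GC
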