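import Pool.Agent.V8H3.GC.Defs
import Pool.Agent.V8H3.GC.GrowD
import Pool.Agent.V8H3.LT.Fin
import Pool.Agent.V8H3.LT.SqFin
import Pool.Agent.V8H10.LT.FinStd
import Pool.Agent.V8H3.GC.G34

/-!
# The final statements for a PL sphere with a doubled cycle
-/

set_option autoImplicit false

noncomputable section

namespace Pool.Agent.V8H3.GC

open Filter Topology Pool.Agent.V8H10.LT Pool.Agent.V8H27.GC
open Pool.Agent.V8H3.LT (davis2 rate2 square build2 p1)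

theorem final3_of_dbl {N d p : ℕ} [Fact p.Prime] (hp : p ≠ 2) (hd : 1 ≤ d) {H : SimpleGraph (Fin N)}
    (hH : PLSphere (2 * d + 1) H) (Z : Pool.Agent.N496.LT.Dbl (ZMod p) H d)
    (c : Fin Z.n → Fin (d + 1)) (hc : ∀ v w a b, H.Adj (Z.j v a) (Z.j w b) → c v ≠ c w) :
    ∃ (n : ℕ) (S : SimpleGraph (Fin n)), PLSphere (2 * d + 1) S ∧ IsResFin (Gam S) ∧
      (free (davis S)).DetL2Acyclic ∧ (free (davis3 S)).DetL2Acyclic ∧ (free (davis3 S)).l2torsion = 0 ∧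
      (∀ (K : ℕ → Subgroup (Gam S)) [∀ i, (K i).Normal], (∀ i, (K i).FiniteIndex) → Antitone K → ⨅ i, K i = ⊥ →
        ∀ b : ℝ, 0 < b → b < 2 ^ n / 2 ^ Z.U.card → ∀ᶠ i in atTop, b ^ 3 * Real.log p ≤ rate (K i) (3 * d + 1)) ∧
      Fails (davis3 S) (3 * d + 1) := by
  obtain ⟨hR, h2⟩ := PLSphere_sphere hH
  obtain ⟨n, S, h1, -, -, -, h5, h6, h7, h8, h9⟩ :=
    Pool.Agent.V8H3.LT.main d N H hd (sphere_R H |>.1 hR) (sphere_2 H |>.1 h2) p hp Z c hc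
  have hr := resFin (G := Gam S) h5
  refine ⟨n, S, PLSphere_subdivided (Pool.Agent.V8H10.LT.subdivided h1) hH, hr, h6, h7, h8, ?_⟩
  have g1 : ∀ (K : ℕ → Subgroup (Gam S)) [∀ i, (K i).Normal], (∀ i, (K i).FiniteIndex) → Antitone K →
      ⨅ i, K i = ⊥ → ∀ b : ℝ, 0 < b → b < 2 ^ n / 2 ^ Z.U.card → ∀ᶠ i in atTop,
      b ^ 3 * Real.log p ≤ rate (K i) (3 * d + 1) := by
    intro K hK hf ha hi b hb hb2
    refine (@h9 K hK hf ha hi b hb hb2).mono fun i hi => ?_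
    unfold rate
    rw [torsion_eq]
    exact hi
  refine ⟨g1, fails_of hr fun K hK hf ha hi ht => ?_⟩
  have hp1 : (1 : ℝ) < p := by exact_mod_cast (Fact.out : p.Prime).one_lt
  have hlog : 0 < Real.log p := Real.log_pos hp1
  have hq : (0 : ℝ) < 2 ^ n / 2 ^ Z.U.card := by positivity
  have e1 : (free (davis3 S)).l2torsion = 0 := h8
  rw [e1, mul_zero] at ht
  have g2 := g1 K hf ha hi (2 ^ n / 2 ^ Z.U.card / 2) (by positivity) (by linarith)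
  have hpos : (0 : ℝ) < (2 ^ n / 2 ^ Z.U.card / 2) ^ 3 * Real.log p := by positivity
  have g3 := (tendsto_order.1 ht).2 _ hpos
  obtain ⟨i, hi1, hi2⟩ := (g2.and g3).exists
  exact absurd hi2 (not_lt.2 hi1)

theorem final2_of_dbl {N d p : ℕ} [Fact p.Prime] (hp : p ≠ 2) (hd : 1 ≤ d) {H : SimpleGraph (Fin N)}
    (hH : PLSphere (2 * d + 1) H) (Z : Pool.Agent.N496.LT.Dbl (ZMod p) H d)
    (c : Fin Z.n → Fin (d + 1)) (hc : ∀ v w a b, H.Adj (Z.j v a) (Z.j w b) → c v ≠ c w) :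
    ∃ (n : ℕ) (S : SimpleGraph (Fin n)), PLSphere (2 * d + 1) S ∧ IsResFin (Gam S) ∧
      (free (davis S)).DetL2Acyclic ∧
      (∀ (K : ℕ → Subgroup (Gam S)) [∀ i, (K i).Normal], (∀ i, (K i).FiniteIndex) → Antitone K → ⨅ i, K i = ⊥ →
        ∀ b : ℝ, 0 < b → b < 2 ^ n / 2 ^ Z.U.card → ∀ᶠ i in atTop, b ^ 2 * Real.log p ≤ rate2 (K i) (2 * d) ∧
          b ^ 2 * Real.log p ≤ rate2 (K i) (2 * d + 1)) ∧
      Grows (davis2 S) (2 * d) ∧ Grows (davis2 S) (2 * d + 1) := by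
  obtain ⟨hR', h2'⟩ := PLSphere_sphere hH
  have hR := (sphere_R H).1 hR'
  have h2 := (sphere_2 H).1 h2'
  obtain ⟨n, S, A, κ, Z', h1, -, -, h4, h5, h6, h7, h8⟩ := build2 H hd hR h2 Z c hc
  obtain ⟨e1, e2⟩ := Pool.Agent.N496.LT.mainG2 p1 Pool.Agent.V8H96.LT.p2g Pool.Agent.V8H74.LT.p3a
    Pool.Agent.V8H42.LT.p3s Pool.Agent.V8H54.LT.p4b Pool.Agent.V8H74.LT.p4r h4 κ h5 h6 p hp Z' h7
  have hr := resFin (G := Gam S) e1
  refine ⟨n, S, PLSphere_subdivided (Pool.Agent.V8H10.LT.subdivided h1) hH, hr,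
    Pool.Agent.V8H86.LT.p4a (Fin n) S h6, ?_⟩
  rw [Fintype.card_fin, h8] at e2
  have g1 : ∀ (K : ℕ → Subgroup (Gam S)) [∀ i, (K i).Normal], (∀ i, (K i).FiniteIndex) → Antitone K →
      ⨅ i, K i = ⊥ → ∀ b : ℝ, 0 < b → b < 2 ^ n / 2 ^ Z.U.card → ∀ᶠ i in atTop,
      b ^ 2 * Real.log p ≤ rate2 (K i) (2 * d) ∧ b ^ 2 * Real.log p ≤ rate2 (K i) (2 * d + 1) := by
    intro K hK hf ha hi b hb hb2
    refine (@e2 K hK hf ha hi b hb hb2).mono fun i hi => ?_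
    have h := fun m hm => hi m hm
    constructor
    · unfold rate2
      rw [torsion_eq]
      exact hi _ (.inl rfl)
    · unfold rate2
      rw [torsion_eq]
      exact hi _ (.inr rfl)
  refine ⟨g1, ?_⟩
  have key : ∀ m, m = 2 * d ∨ m = 2 * d + 1 → Grows (davis2 S) m := by
    intro m hm
    obtain ⟨K, k1, k2, k3, k4⟩ := hr
    have := k1
    refine ⟨fun i => square (K i), fun i => inferInstance, fun i => Pool.Agent.V8H3.LT.square_finiteIndex (K i) (k2 i),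
      Pool.Agent.V8H3.LT.square_antitone K k3, Pool.Agent.V8H3.LT.square_iInf K k4, fun ht => ?_⟩
    have hpos : (0 : ℝ) < 2 ^ n / 2 ^ Z.U.card / 2 := by positivity
    have hlt : (2 : ℝ) ^ n / 2 ^ Z.U.card / 2 < 2 ^ n / 2 ^ Z.U.card := by
      have : (0 : ℝ) < 2 ^ n / 2 ^ Z.U.card := by positivity
      linarith
    have h5 := g1 K k2 k3 k4 _ hpos hlt
    have hlog : 0 < Real.log (p : ℝ) := Real.log_pos (by exact_mod_cast (Fact.out : p.Prime).one_lt)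
    have h6 : (0 : ℝ) < (2 ^ n / 2 ^ Z.U.card / 2) ^ 2 * Real.log p := mul_pos (pow_pos hpos 2) hlog
    have h7 := ht.eventually (gt_mem_nhds h6)
    obtain ⟨i, hi1, hi2⟩ := (h5.and h7).exists
    rcases hm with rfl | rfl
    · exact absurd hi1.1 (not_le.2 hi2)
    · exact absurd hi1.2 (not_le.2 hi2)
  exact ⟨key _ (.inl rfl), key _ (.inr rfl)⟩

end Pool.Agent.V8H3.GC
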